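import Pool.Agent.V1146.HKS.Ring

set_option autoImplicit false

open IsLocalRing

namespace Pool.Agent.V1146.HKS

section

variable {k : Type} [Field k] {c : ℕ}

/-- coordinates of `x a` -/
noncomputable def shift (hc : c ≠ 0) (a : AA k c) (m : ℕ) : R k :=
  if m = 0 then yy ^ (c + 1) * co hc (c - 1) a else co hc (m - 1) a

theorem xx_mul (hc : c ≠ 0) (a : AA k c) :
    xx * a = ∑ m ∈ Finset.range c, al (shift hc a m) * xx ^ m := by
  obtain ⟨d, rfl⟩ := Nat.exists_eq_succ_of_ne_zero hc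
  have h0 : xx * a = ∑ l ∈ Finset.range (d + 1), al (co hc l a) * xx ^ (l + 1) := by
    conv_lhs => rw [eq_sum hc a]
    rw [Finset.mul_sum]
    apply Finset.sum_congr rfl
    intro l _
    rw [pow_succ]; ring
  rw [h0, Finset.sum_range_succ, Finset.sum_range_succ']
  have h1 : (xx : AA k (d + 1)) ^ (d + 1) = al (yy ^ (d + 1 + 1)) := xx_pow
  congr 1
  rw [h1]
  simp only [shift, Nat.succ_eq_add_one, add_tsub_cancel_right, if_true, pow_zero, mul_one, map_mul]
  ring

theorem co_xx_mul (hc : c ≠ 0) (a : AA k c) (l : ℕ) (hl : l < c) :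
    co hc l (xx * a) = shift hc a l := by
  rw [xx_mul hc a, co_sum hc l hl]

theorem co_one (hc : c ≠ 0) (l : ℕ) (hl : l < c) :
    co (k := k) hc l 1 = if l = 0 then 1 else 0 := by
  have h1 : (1 : AA k c) = ∑ m ∈ Finset.range c, al (if m = 0 then 1 else 0) * xx ^ m := by
    rw [Finset.sum_eq_single 0]
    · simp
    · intro b _ hb
      rw [if_neg hb, map_zero, zero_mul]
    · intro h
      exact absurd (Finset.mem_range.mpr (Nat.pos_of_ne_zero hc)) h
  rw [h1, co_sum hc l hl]

theorem co_xx_pow (hc : c ≠ 0) (n : ℕ) (hn : n < c) (l : ℕ) (hl : l < c) :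
    co (k := k) hc l (xx ^ n) = if l = n then 1 else 0 := by
  have h1 : (xx ^ n : AA k c) = ∑ m ∈ Finset.range c, al (if m = n then 1 else 0) * xx ^ m := by
    rw [Finset.sum_eq_single n]
    · simp
    · intro b _ hb
      rw [if_neg hb, map_zero, zero_mul]
    · intro h
      exact absurd (Finset.mem_range.mpr hn) h
  rw [h1, co_sum hc l hl]

/-- the filtration `{a | x_l-coordinate in N^(n-l)}` -/
noncomputable def Kid (hc : c ≠ 0) (n : ℕ) : Ideal (AA k c) where
  carrier := {a | ∀ l < c, co hc l a ∈ NN ^ (n - l)}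
  zero_mem' := fun l _ => by rw [map_zero]; exact Ideal.zero_mem _
  add_mem' := fun {a b} ha hb l hl => by rw [map_add]; exact Ideal.add_mem _ (ha l hl) (hb l hl)
  smul_mem' := by
    intro u a ha
    have hal : ∀ (r : R k) (b : AA k c), (∀ l < c, co hc l b ∈ NN ^ (n - l)) →
        ∀ l < c, co hc l (al r * b) ∈ NN ^ (n - l) := by
      intro r b hb l hl
      rw [co_mul]
      exact Ideal.mul_mem_left _ _ (hb l hl)
    have hx : ∀ (b : AA k c), (∀ l < c, co hc l b ∈ NN ^ (n - l)) →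
        ∀ l < c, co hc l (xx * b) ∈ NN ^ (n - l) := by
      intro b hb l hl
      rw [co_xx_mul hc b l hl, shift]
      split_ifs with h0
      · subst h0
        have h1 : (yy : R k) ^ (c + 1) ∈ NN ^ (c + 1) :=
          Ideal.pow_mem_pow (Ideal.subset_span (by simp)) _
        have h2 := Ideal.mul_mem_mul h1 (hb (c - 1) (by omega))
        rw [← pow_add] at h2
        exact Ideal.pow_le_pow_right (by omega) h2
      · exact Ideal.pow_le_pow_right (by omega) (hb (l - 1) (by omega))
    have hxn : ∀ (m : ℕ) (b : AA k c), (∀ l < c, co hc l b ∈ NN ^ (n - l)) →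
        ∀ l < c, co hc l (xx ^ m * b) ∈ NN ^ (n - l) := by
      intro m
      induction m with
      | zero => intro b hb; simpa using hb
      | succ m ih =>
        intro b hb
        have := ih (xx * b) (hx b hb)
        intro l hl
        rw [pow_succ, mul_assoc]
        exact this l hl
    intro l hl
    rw [smul_eq_mul, eq_sum hc u, Finset.sum_mul, map_sum]
    apply Ideal.sum_mem
    intro m _
    rw [mul_assoc]
    exact hal _ _ (hxn m a ha) l hl

theorem mem_Kid (hc : c ≠ 0) (n : ℕ) (a : AA k c) :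
    a ∈ Kid hc n ↔ ∀ l < c, co hc l a ∈ NN ^ (n - l) := Iff.rfl

theorem MM_pow_le_Kid (hc : c ≠ 0) (n : ℕ) : (MM : Ideal (AA k c)) ^ n ≤ Kid hc n := by
  induction n with
  | zero =>
    intro a _
    rw [mem_Kid]
    intro l _
    rw [Nat.zero_sub, pow_zero, Ideal.one_eq_top]
    exact Submodule.mem_top
  | succ n ih =>
    rw [pow_succ', Ideal.mul_le]
    intro w hw a ha
    have ha' := ih ha
    rw [mem_Kid] at ha'
    rw [MM] at hw
    obtain ⟨u, v, hv, rfl⟩ := Ideal.mem_span_singleton_sup.mp hw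
    rw [add_mul]
    apply Ideal.add_mem
    · rw [mul_assoc]
      apply Ideal.mul_mem_left
      rw [mem_Kid]
      intro l hl
      rw [co_xx_mul hc a l hl, shift]
      split_ifs with h0
      · subst h0
        have h1 : (yy : R k) ^ (c + 1) ∈ NN ^ (c + 1) :=
          Ideal.pow_mem_pow (Ideal.subset_span (by simp)) _
        have h2 := Ideal.mul_mem_mul h1 (ha' (c - 1) (by omega))
        rw [← pow_add] at h2
        exact Ideal.pow_le_pow_right (by omega) h2
      · exact Ideal.pow_le_pow_right (by omega) (ha' (l - 1) (by omega))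
    · have h3 : NN.map (al : R k →+* AA k c) ≤ (Kid hc (n + 1)).colon {a} := by
        rw [Ideal.map_le_iff_le_comap]
        intro r hr
        rw [Ideal.mem_comap, Submodule.mem_colon_singleton, smul_eq_mul, mem_Kid]
        intro l hl
        rw [co_mul]
        have h4 := Ideal.mul_mem_mul hr (ha' l hl)
        rw [← pow_succ'] at h4
        exact Ideal.pow_le_pow_right (by omega) h4
      have h5 := h3 hv
      rw [Submodule.mem_colon_singleton, smul_eq_mul] at h5
      exact h5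

theorem MM_pow_le (hc : c ≠ 0) (n : ℕ) :
    (MM : Ideal (AA k c)) ^ n ≤ (NN ^ (n + 1 - c)).map al := by
  refine (MM_pow_le_Kid hc n).trans ?_
  intro a ha
  rw [mem_Kid] at ha
  rw [mem_map hc]
  intro l hl
  exact Ideal.pow_le_pow_right (by omega) (ha l hl)

theorem le_MM_pow (n : ℕ) : (NN ^ n).map (al : R k →+* AA k c) ≤ MM ^ n := by
  rw [Ideal.map_pow]
  exact Ideal.pow_right_mono le_sup_right n

/-- coordinates as a `k`-linear map -/
noncomputable def phi (hc : c ≠ 0) {ι : Type} (s : ι → ℕ × ℕ) : AA k c →ₗ[k] (Fin c × ι → k) :=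
  LinearMap.pi fun u => (cf (s u.2).1 (s u.2).2) ∘ₗ (co hc u.1).restrictScalars k

theorem phi_surjective (hc : c ≠ 0) {ι : Type} (s : ι → ℕ × ℕ) (hs : Function.Injective s) :
    Function.Surjective (phi (k := k) hc s) := by
  intro w
  refine ⟨∑ m ∈ Finset.range c, al (if hm : m < c then
    PowerSeries.mk (fun j => PowerSeries.mk fun i =>
      Function.extend s (fun t => w (⟨m, hm⟩, t)) 0 (i, j)) else 0) * xx ^ m, ?_⟩
  ext u
  change cf (s u.2).1 (s u.2).2 (co hc u.1 _) = _
  rw [co_sum hc u.1 u.1.2, dif_pos u.1.2, cf_apply, PowerSeries.coeff_mk, PowerSeries.coeff_mk]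
  have : ((s u.2).1, (s u.2).2) = s u.2 := rfl
  rw [this, hs.extend_apply]

theorem phi_ker (hc : c ≠ 0) {ι : Type} (s : ι → ℕ × ℕ) (I : Ideal (R k))
    (hI : ∀ f : R k, f ∈ I ↔ ∀ t, cf (s t).1 (s t).2 f = 0) (a : AA k c) :
    phi hc s a = 0 ↔ a ∈ I.map al := by
  rw [mem_map hc]
  constructor
  · intro h l hl
    rw [hI]
    intro t
    exact congrFun h (⟨l, hl⟩, t)
  · intro h
    ext u
    exact (hI _).mp (h u.1 u.1.2) u.2

theorem finite_quot (hc : c ≠ 0) {ι : Type} [Fintype ι] (s : ι → ℕ × ℕ)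
    (hs : Function.Injective s) (I : Ideal (R k))
    (hI : ∀ f : R k, f ∈ I ↔ ∀ t, cf (s t).1 (s t).2 f = 0) :
    Module.Finite k (AA k c ⧸ I.map al) := by
  have hker : LinearMap.ker (phi (k := k) hc s) = (I.map al).restrictScalars k := by
    ext a
    rw [LinearMap.mem_ker, phi_ker hc s I hI]
    rfl
  have e1 := (phi (k := k) hc s).quotKerEquivOfSurjective (phi_surjective hc s hs)
  have e2 : (AA k c ⧸ I.map al) ≃ₗ[k] (Fin c × ι → k) :=
    ((Submodule.Quotient.restrictScalarsEquiv k (I.map al)).symm.trans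
      (Submodule.quotEquivOfEq ((I.map al).restrictScalars k) (LinearMap.ker (phi (k := k) hc s))
        hker.symm)).trans e1
  exact Module.Finite.equiv e2.symm

theorem colen_map (hc : c ≠ 0) [IsLocalRing (AA k c)] {ι : Type} [Fintype ι] (s : ι → ℕ × ℕ)
    (hs : Function.Injective s) (I : Ideal (R k))
    (hI : ∀ f : R k, f ∈ I ↔ ∀ t, cf (s t).1 (s t).2 f = 0) :
    colen (AA k c) (I.map al) = c * (Fintype.card ι : ℝ) := by
  rw [colen_of_map (k := k) (residue hc) (I.map al) (phi hc s) (phi_surjective hc s hs)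
    (phi_ker hc s I hI), Fintype.card_prod, Fintype.card_fin]
  push_cast
  rfl

/-- exponents in a box -/
def sBox (q : ℕ) : Fin q × Fin q → ℕ × ℕ := fun t => (t.1, t.2)

theorem sBox_inj (q : ℕ) : Function.Injective (sBox q) := by
  intro a b h
  rw [sBox, sBox, Prod.mk.injEq] at h
  exact Prod.ext (Fin.ext h.1) (Fin.ext h.2)

theorem sBox_mem (q : ℕ) (f : R k) : f ∈ Ideal.span {(yy : R k) ^ q, zz ^ q} ↔
    ∀ t, cf (sBox q t).1 (sBox q t).2 f = 0 := by
  rw [mem_box]
  constructor
  · intro h t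
    exact h _ _ t.1.2 t.2.2
  · intro h i j hi hj
    exact h (⟨i, hi⟩, ⟨j, hj⟩)

theorem colen_box (hc : c ≠ 0) [IsLocalRing (AA k c)] (q : ℕ) :
    colen (AA k c) ((Ideal.span {(yy : R k) ^ q, zz ^ q}).map al) = c * (q : ℝ) ^ 2 := by
  rw [colen_map hc (sBox q) (sBox_inj q) _ (sBox_mem q), Fintype.card_prod, Fintype.card_fin]
  push_cast
  ring

/-- exponents of degree below `n` -/
def sTri (n : ℕ) : (Σ m : Fin n, Fin (m + 1)) → ℕ × ℕ := fun t => (t.2, t.1 - t.2)

theorem sTri_inj (n : ℕ) : Function.Injective (sTri n) := by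
  rintro ⟨⟨a, ha⟩, ⟨b, hb⟩⟩ ⟨⟨a', ha'⟩, ⟨b', hb'⟩⟩ h
  simp only [sTri, Prod.mk.injEq] at h
  simp only at hb hb'
  obtain ⟨h1, h2⟩ := h
  subst h1
  have : a = a' := by omega
  subst this
  rfl

theorem sTri_mem (n : ℕ) (f : R k) : f ∈ (NN : Ideal (R k)) ^ n ↔
    ∀ t, cf (sTri n t).1 (sTri n t).2 f = 0 := by
  rw [mem_NN_pow]
  constructor
  · intro h t
    apply h
    have h1 := t.1.2
    have h2 := t.2.2
    simp only [sTri]
    omega
  · intro h i j hij
    have := h ⟨⟨i + j, hij⟩, ⟨i, by simp only; omega⟩⟩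
    simp only [sTri] at this
    rwa [Nat.add_sub_cancel_left] at this

theorem card_tri (n : ℕ) : (Fintype.card (Σ m : Fin n, Fin (m + 1)) : ℝ) = n * (n + 1) / 2 := by
  rw [Fintype.card_sigma]
  simp only [Fintype.card_fin]
  rw [Fin.sum_univ_eq_sum_range (fun m => m + 1) n]
  induction n with
  | zero => simp
  | succ n ih =>
    rw [Finset.sum_range_succ, Nat.cast_add, ih]
    push_cast
    ring

theorem colen_tri (hc : c ≠ 0) [IsLocalRing (AA k c)] (n : ℕ) :
    colen (AA k c) ((NN ^ n).map al) = c * ((n : ℝ) * (n + 1) / 2) := by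
  rw [colen_map hc (sTri n) (sTri_inj n) _ (sTri_mem n), card_tri]

theorem finite_tri (hc : c ≠ 0) (n : ℕ) : Module.Finite k (AA k c ⧸ (NN ^ n).map (al : R k →+* AA k c)) :=
  finite_quot hc (sTri n) (sTri_inj n) _ (sTri_mem n)

theorem colen_pow_le (hc : c ≠ 0) [IsLocalRing (AA k c)] (n : ℕ) :
    colen (AA k c) (maximalIdeal (AA k c) ^ n) ≤ c * ((n : ℝ) * (n + 1) / 2) := by
  have := finite_tri (k := k) hc n
  rw [← colen_tri (k := k) hc n, maximalIdeal_A hc]
  exact colen_anti (residue hc) (le_MM_pow n)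

theorem le_colen_pow (hc : c ≠ 0) [IsLocalRing (AA k c)] (n : ℕ) :
    c * (((n + 1 - c : ℕ) : ℝ) * ((n + 1 - c : ℕ) + 1) / 2) ≤
      colen (AA k c) (maximalIdeal (AA k c) ^ n) := by
  have h1 := finite_tri (k := k) hc n
  have h2 : Module.Finite k (AA k c ⧸ (MM : Ideal (AA k c)) ^ n) := Module.Finite.of_surjective
    (Ideal.Quotient.factorₐ k (le_MM_pow n)).toLinearMap
    (Ideal.Quotient.factor_surjective (le_MM_pow n))
  rw [← colen_tri (k := k) hc (n + 1 - c), maximalIdeal_A hc]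
  exact colen_anti (residue hc) (MM_pow_le hc n)

end

end Pool.Agent.V1146.HKS
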