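import Mathlib

/-!
# Multiplicity, Hilbert-Kunz multiplicity, F-signature, Gorenstein local rings
-/

set_option autoImplicit false

open Filter Topology IsLocalRing

namespace Pool.Agent.V1146.HKS

section

variable (A : Type) [CommRing A]

/-- The length `ℓ_A (A / I)` as a real number (for ideals `I` of finite colength). -/
noncomputable def colen (I : Ideal A) : ℝ := ((Module.length A (A ⧸ I)).toNat : ℝ)

/-- The ideal `I^[q]` generated by the `q`-th powers of the elements of `I`. -/
def frobPow (I : Ideal A) (q : ℕ) : Ideal A := Ideal.span ((fun a => a ^ q) '' (I : Set A))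

/-- The local ring `A` of dimension `d` has Hilbert-Samuel multiplicity `ε`:
`ε = lim d! ℓ(A / 𝔪ⁿ) / n^d`. -/
def HasMultiplicity [IsLocalRing A] (d : ℕ) (ε : ℝ) : Prop :=
  Tendsto (fun n : ℕ => (d.factorial : ℝ) * colen A (maximalIdeal A ^ n) / (n : ℝ) ^ d)
    atTop (𝓝 ε)

/-- The local ring `A` of dimension `d` has Hilbert-Kunz multiplicity `ε`:
`ε = lim ℓ(A / 𝔪^[p^e]) / (p^e)^d`. -/
def HasHilbertKunz [IsLocalRing A] (p d : ℕ) (ε : ℝ) : Prop :=
  Tendsto (fun e : ℕ => colen A (frobPow A (maximalIdeal A) (p ^ e)) / ((p : ℝ) ^ e) ^ d)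
    atTop (𝓝 ε)

/-- `Aⁿ` is a direct summand of `F^e_* A`: there are `A`-linear maps `i : Aⁿ → F^e_* A` and
`r : F^e_* A → Aⁿ` with `r ∘ i = id`, where `F^e_* A` is `A` with the module structure
`a • x = a ^ (p ^ e) * x`. -/
def IsFreeSummand (p e n : ℕ) : Prop :=
  ∃ (i : (Fin n → A) →+ A) (r : A →+ (Fin n → A)),
    (∀ (a : A) (v : Fin n → A), i (a • v) = a ^ p ^ e * i v) ∧
    (∀ a x : A, r (a ^ p ^ e * x) = a • r x) ∧ ∀ v, r (i v) = v

/-- The number `a_e`: the greatest `n` such that `Aⁿ` is a direct summand of `F^e_* A`. -/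
noncomputable def freeRank (p e : ℕ) : ℕ := sSup {n | IsFreeSummand A p e n}

/-- The local ring `A` of dimension `d` and characteristic `p` has F-signature `s`:
`s = lim a_e / p ^ (e (d + α))`, where `p ^ α = [κ : κ^p]` for the residue field `κ`. -/
def HasFSignature [IsLocalRing A] (p d : ℕ) (s : ℝ) : Prop :=
  Tendsto (fun e : ℕ => (freeRank A p e : ℝ) /
    ((p : ℝ) ^ d * (Module.finrank (Subfield.closure (Set.range fun x : ResidueField A => x ^ p))
      (ResidueField A) : ℝ)) ^ e) atTop (𝓝 s)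

/-- The local ring `A` is Gorenstein of dimension `d`: its dimension is `d` and there is a regular
sequence of length `d` (in the maximal ideal) generating an ideal `J` such that the socle
`(J : 𝔪) / J` of `A / J` is one-dimensional over the residue field (spanned by the class of some
`u ∉ J`); that is, `A` is Cohen-Macaulay of type one. -/
def IsGorensteinOfDim [IsLocalRing A] (d : ℕ) : Prop :=
  ringKrullDim A = d ∧ ∃ rs : List A, rs.length = d ∧ RingTheory.Sequence.IsRegular A rs ∧
    (∀ r ∈ rs, r ∈ maximalIdeal A) ∧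
    ∃ u : A, u ∉ Ideal.ofList rs ∧ ∀ a : A,
      (∀ w ∈ maximalIdeal A, w * a ∈ Ideal.ofList rs) ↔ a ∈ Ideal.ofList rs ⊔ Ideal.span {u}

end

end Pool.Agent.V1146.HKS
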