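import Pool.Agent.V1146.HKS.Defs

set_option autoImplicit false

open IsLocalRing

namespace Pool.Agent.V1146.HKS

/-- Length over a local `k`-algebra with residue field `k` is `k`-dimension. -/
theorem length_eq_length {k A : Type} [Field k] [CommRing A] [IsLocalRing A] [Algebra k A]
    (h : ∀ a : A, ∃ c : k, a - algebraMap k A c ∈ maximalIdeal A) {M : Type} [AddCommGroup M]
    [Module A M] (hM : IsFiniteLength A M) :
    ∀ [Module k M] [IsScalarTower k A M], Module.length A M = Module.length k M := by
  induction hM with
  | of_subsingleton => intro _ _; rw [Module.length_eq_zero, Module.length_eq_zero]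
  | @of_simple_quotient M _ _ N hS hN ih =>
    intro _ _
    have h1 : Module.length A M = Module.length A N + Module.length A (M ⧸ N) :=
      Module.length_eq_add_of_exact N.subtype N.mkQ N.subtype_injective N.mkQ_surjective
        (LinearMap.exact_subtype_mkQ N)
    have h2 : Module.length k M = Module.length k N + Module.length k (M ⧸ N) :=
      Module.length_eq_add_of_exact (N.subtype.restrictScalars k) (N.mkQ.restrictScalars k)
        N.subtype_injective N.mkQ_surjective (LinearMap.exact_subtype_mkQ N)
    rw [h1, h2, ih, Module.length_eq_one A (M ⧸ N)]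
    congr 1
    have hnt : Nontrivial (M ⧸ N) := IsSimpleModule.nontrivial A (M ⧸ N)
    obtain ⟨v, hv⟩ := exists_ne (0 : M ⧸ N)
    have hgen : ∀ w : M ⧸ N, ∃ a : A, a • v = w := by
      intro w
      have ht : Submodule.span A {v} = ⊤ := by
        rcases eq_bot_or_eq_top (Submodule.span A {v}) with hb | ht
        · exact absurd (Submodule.span_singleton_eq_bot.mp hb) hv
        · exact ht
      have hw : w ∈ Submodule.span A {v} := ht ▸ Submodule.mem_top
      exact Submodule.mem_span_singleton.mp hw
    have hkill : ∀ a ∈ maximalIdeal A, a • v = 0 := by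
      intro a ha
      by_contra hne
      have ht : Submodule.span A {a • v} = ⊤ := by
        rcases eq_bot_or_eq_top (Submodule.span A {a • v}) with hb | ht
        · exact absurd (Submodule.span_singleton_eq_bot.mp hb) hne
        · exact ht
      have hw : v ∈ Submodule.span A {a • v} := ht ▸ Submodule.mem_top
      obtain ⟨b, hb⟩ := Submodule.mem_span_singleton.mp hw
      have h3 : (1 - b * a) • v = 0 := by
        rw [sub_smul, one_smul, mul_smul, hb, sub_self]
      have hu : IsUnit (1 - b * a) := by
        by_contra hnu
        have h4 : (1 - b * a) ∈ maximalIdeal A := (mem_maximalIdeal _).mpr hnu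
        have h5 : (1 : A) ∈ maximalIdeal A := by
          have := Ideal.add_mem _ h4 (Ideal.mul_mem_left _ b ha)
          simpa using this
        exact (mem_maximalIdeal _).mp h5 isUnit_one
      exact hv ((hu.smul_eq_zero).mp h3)
    have hfr : Module.finrank k (M ⧸ N) = 1 := by
      rw [finrank_eq_one_iff_of_nonzero' v hv]
      intro w
      obtain ⟨a, rfl⟩ := hgen w
      obtain ⟨c, hc⟩ := h a
      refine ⟨c, ?_⟩
      have h6 := hkill _ hc
      rw [sub_smul, sub_eq_zero] at h6
      rw [h6, algebraMap_smul]
    have : Module.Finite k (M ⧸ N) := Module.finite_of_finrank_eq_succ hfr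
    rw [Module.length_eq_finrank, hfr]
    rfl

/-- Colength of an ideal of finite codimension is the codimension. -/
theorem colen_eq {k A : Type} [Field k] [CommRing A] [IsLocalRing A] [Algebra k A]
    (h : ∀ a : A, ∃ c : k, a - algebraMap k A c ∈ maximalIdeal A) (I : Ideal A)
    [Module.Finite k (A ⧸ I)] : colen A I = (Module.finrank k (A ⧸ I) : ℝ) := by
  have h1 : IsFiniteLength A (A ⧸ I) := by
    rw [isFiniteLength_iff_isNoetherian_isArtinian]
    exact ⟨isNoetherian_of_tower k inferInstance, isArtinian_of_tower k inferInstance⟩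
  unfold colen
  rw [length_eq_length h h1 , Module.length_eq_finrank]
  rfl

/-- Codimension from a surjective linear map with the given kernel. -/
theorem colen_of_map {k A : Type} [Field k] [CommRing A] [IsLocalRing A] [Algebra k A]
    (h : ∀ a : A, ∃ c : k, a - algebraMap k A c ∈ maximalIdeal A) (I : Ideal A)
    {ι : Type} [Fintype ι] (φ : A →ₗ[k] (ι → k)) (hs : Function.Surjective φ)
    (hk : ∀ a, φ a = 0 ↔ a ∈ I) : colen A I = (Fintype.card ι : ℝ) := by
  have hker : LinearMap.ker φ = I.restrictScalars k := by
    ext a
    rw [LinearMap.mem_ker, hk]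
    rfl
  have e1 : (A ⧸ LinearMap.ker φ) ≃ₗ[k] (ι → k) := φ.quotKerEquivOfSurjective hs
  have e2 : (A ⧸ I) ≃ₗ[k] (ι → k) :=
    ((Submodule.Quotient.restrictScalarsEquiv k I).symm.trans
      (Submodule.quotEquivOfEq (I.restrictScalars k) (LinearMap.ker φ) hker.symm)).trans e1
  have : Module.Finite k (A ⧸ I) := Module.Finite.equiv e2.symm
  rw [colen_eq h I, LinearEquiv.finrank_eq e2, Module.finrank_fintype_fun_eq_card]

/-- Monotonicity of the colength. -/
theorem colen_anti {k A : Type} [Field k] [CommRing A] [IsLocalRing A] [Algebra k A]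
    (h : ∀ a : A, ∃ c : k, a - algebraMap k A c ∈ maximalIdeal A) {I J : Ideal A} (hIJ : I ≤ J)
    [Module.Finite k (A ⧸ I)] : colen A J ≤ colen A I := by
  have hsurj : Function.Surjective (Ideal.Quotient.factorₐ k hIJ) := Ideal.Quotient.factor_surjective hIJ
  have : Module.Finite k (A ⧸ J) := Module.Finite.of_surjective
    (Ideal.Quotient.factorₐ k hIJ).toLinearMap hsurj
  rw [colen_eq h I, colen_eq h J]
  exact_mod_cast LinearMap.finrank_le_finrank_of_surjective (f := (Ideal.Quotient.factorₐ k hIJ).toLinearMap) hsurj

end Pool.Agent.V1146.HKS
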