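import Pool.Agent.V1146.HKS.Count

set_option autoImplicit false

open IsLocalRing Filter Topology Pointwise

namespace Pool.Agent.V1146.HKS

section

variable {k : Type} [Field k] {c : ℕ}

theorem al_injective (hc : c ≠ 0) : Function.Injective (al : R k →+* AA k c) := by
  intro a b h
  have h1 := congrArg (co hc 0) h
  have h2 : ∀ r : R k, co hc 0 (al r) = r := by
    intro r
    have := co_mul hc 0 r (1 : AA k c)
    rw [mul_one, co_one hc 0 (Nat.pos_of_ne_zero hc), if_pos rfl, mul_one] at this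
    exact this
  rw [h2, h2] at h1
  exact h1

theorem co_ext (hc : c ≠ 0) {a b : AA k c} (h : ∀ l < c, co hc l a = co hc l b) : a = b := by
  rw [eq_sum hc a, eq_sum hc b]
  apply Finset.sum_congr rfl
  intro l hl
  rw [h l (Finset.mem_range.mp hl)]

theorem charP_A (hc : c ≠ 0) (p : ℕ) [CharP k p] : CharP (AA k c) p :=
  charP_of_injective_ringHom (al_injective hc) p

theorem xx_pow_dvd (q : ℕ) (hc : c ≠ 0) (hq : c ^ 2 ≤ q) :
    ∃ b : AA k c, xx ^ q = (al yy) ^ q * b := by
  have h1 : q = c * (q / c) + q % c := (Nat.div_add_mod q c).symm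
  have h2 : q % c < c := Nat.mod_lt _ (Nat.pos_of_ne_zero hc)
  have h3 : c ≤ q / c := by
    rw [Nat.le_div_iff_mul_le (Nat.pos_of_ne_zero hc)]
    nlinarith
  have h4 : q ≤ (c + 1) * (q / c) := by nlinarith
  obtain ⟨s, hs⟩ := Nat.exists_eq_add_of_le h4
  refine ⟨(al yy) ^ s * xx ^ (q % c), ?_⟩
  conv_lhs => rw [h1, pow_add, pow_mul, xx_pow, ← map_pow, ← pow_mul, hs]
  rw [← mul_assoc, ← map_pow, ← map_pow, ← map_mul, ← pow_add]

theorem frobPow_eq (hc : c ≠ 0) (p : ℕ) [Fact p.Prime] [CharP k p] (e : ℕ)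
    (hq : c ^ 2 ≤ p ^ e) [IsLocalRing (AA k c)] :
    frobPow (AA k c) (maximalIdeal (AA k c)) (p ^ e) =
      (Ideal.span {(yy : R k) ^ (p ^ e), zz ^ (p ^ e)}).map al := by
  have hch := charP_A (k := k) hc p
  have hch' : ExpChar (AA k c) p := ExpChar.prime Fact.out
  rw [maximalIdeal_A hc]
  set J : Ideal (AA k c) := (Ideal.span {(yy : R k) ^ (p ^ e), zz ^ (p ^ e)}).map al with hJ
  have hyJ : (al yy : AA k c) ^ (p ^ e) ∈ J := by
    rw [← map_pow]
    exact Ideal.mem_map_of_mem _ (Ideal.subset_span (by simp))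
  have hzJ : (al zz : AA k c) ^ (p ^ e) ∈ J := by
    rw [← map_pow]
    exact Ideal.mem_map_of_mem _ (Ideal.subset_span (by simp))
  apply le_antisymm
  · rw [frobPow, Ideal.span_le]
    rintro _ ⟨a, ha, rfl⟩
    have h1 : (MM : Ideal (AA k c)) ≤ J.comap (iterateFrobenius (AA k c) p e) := by
      rw [MM, sup_le_iff]
      constructor
      · rw [Ideal.span_singleton_le_iff_mem, Ideal.mem_comap, iterateFrobenius_def]
        obtain ⟨b, hb⟩ := xx_pow_dvd (k := k) (p ^ e) hc hq
        rw [hb]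
        exact Ideal.mul_mem_right _ _ hyJ
      · rw [NN, Ideal.map_span, Ideal.span_le, Set.image_pair]
        rintro w (rfl | rfl)
        · change iterateFrobenius (AA k c) p e (al yy) ∈ J
          rw [iterateFrobenius_def]
          exact hyJ
        · change iterateFrobenius (AA k c) p e (al zz) ∈ J
          rw [iterateFrobenius_def]
          exact hzJ
    have h2 := h1 ha
    rw [Ideal.mem_comap, iterateFrobenius_def] at h2
    exact h2
  · rw [hJ, Ideal.map_span, Ideal.span_le, Set.image_pair]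
    have hy : (al yy : AA k c) ∈ (MM : Ideal (AA k c)) :=
      Ideal.mem_sup_right (Ideal.mem_map_of_mem _ (Ideal.subset_span (by simp)))
    have hz : (al zz : AA k c) ∈ (MM : Ideal (AA k c)) :=
      Ideal.mem_sup_right (Ideal.mem_map_of_mem _ (Ideal.subset_span (by simp)))
    rintro w (rfl | rfl)
    · exact Ideal.subset_span ⟨al yy, hy, (map_pow al yy _).symm⟩
    · exact Ideal.subset_span ⟨al zz, hz, (map_pow al zz _).symm⟩

theorem ev_yy : ev (yy : R k) = 0 := mem_NN.mp (Ideal.subset_span (by simp))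

theorem ev_zz : ev (zz : R k) = 0 := mem_NN.mp (Ideal.subset_span (by simp))

theorem xx_notMem (hc : 2 ≤ c) (b : AA k c) : (xx : AA k c) ≠ al yy * b := by
  intro h
  have hc0 : c ≠ 0 := by omega
  have h1 := congrArg (co (k := k) hc0 1) h
  have h2 := co_xx_pow (k := k) hc0 1 (by omega) 1 (by omega)
  rw [pow_one, if_pos rfl] at h2
  rw [h2, co_mul] at h1
  have h3 := congrArg (ev (k := k)) h1
  rw [map_one, map_mul, ev_yy, zero_mul] at h3
  exact one_ne_zero h3

theorem freeRank_eq_zero (hc : 2 ≤ c) (p e : ℕ) (hq : c ^ 2 ≤ p ^ e) :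
    freeRank (AA k c) p e = 0 := by
  have h0 : ∀ n, IsFreeSummand (AA k c) p e n → n ≤ 0 := by
    rintro n ⟨i, r, hi, hr, hri⟩
    by_contra hn
    have hn' : 0 < n := by omega
    set v : Fin n → AA k c := Pi.single (⟨0, hn'⟩ : Fin n) 1 with hv
    obtain ⟨b, hb⟩ := xx_pow_dvd (k := k) (p ^ e) (by omega : c ≠ 0) hq
    have h1 : i ((xx : AA k c) • v) = (al yy) ^ p ^ e * (b * i v) := by
      rw [hi, hb, mul_assoc]
    have h2 := hri ((xx : AA k c) • v)
    rw [h1, hr] at h2
    have h3 := congrFun h2 (⟨0, hn'⟩ : Fin n)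
    rw [Pi.smul_apply, Pi.smul_apply, hv, Pi.single_eq_same, smul_eq_mul, smul_eq_mul,
      mul_one] at h3
    exact xx_notMem hc _ h3.symm
  have h1 : freeRank (AA k c) p e ≤ 0 := csSup_le' (fun n hn => h0 n hn)
  exact Nat.le_zero.mp h1

theorem isSMulRegular_zz (hc : c ≠ 0) : IsSMulRegular (AA k c) (al zz : AA k c) := by
  intro a b h
  apply co_ext hc
  intro l _
  have h1 := congrArg (co hc l) h
  simp only [smul_eq_mul] at h1
  rw [co_mul, co_mul] at h1
  exact mul_left_cancel₀ PowerSeries.X_ne_zero h1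

theorem mem_zz (hc : c ≠ 0) (a : AA k c) :
    a ∈ Ideal.span {(al zz : AA k c)} ↔ ∀ l < c, PowerSeries.constantCoeff (co hc l a) = 0 := by
  have h1 : Ideal.span {(al zz : AA k c)} = (Ideal.span {(zz : R k)}).map al := by
    rw [Ideal.map_span, Set.image_singleton]
  rw [h1, mem_map hc]
  simp only [Ideal.mem_span_singleton, zz, PowerSeries.X_dvd_iff]

theorem isSMulRegular_yy (hc : c ≠ 0) (a : AA k c)
    (h : (al yy : AA k c) * a ∈ Ideal.span {(al zz : AA k c)}) :
    a ∈ Ideal.span {(al zz : AA k c)} := by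
  rw [mem_zz hc] at h ⊢
  intro l hl
  have h1 := h l hl
  rw [co_mul, map_mul, yy, PowerSeries.constantCoeff_C] at h1
  exact (mul_eq_zero.mp h1).resolve_left PowerSeries.X_ne_zero

theorem isRegular_A (hc : c ≠ 0) [IsLocalRing (AA k c)] [IsNoetherianRing (AA k c)] :
    RingTheory.Sequence.IsRegular (AA k c) [(al zz : AA k c), al yy] := by
  have hmem : ∀ r ∈ [(al zz : AA k c), al yy], r ∈ maximalIdeal (AA k c) := by
    rw [maximalIdeal_A hc]
    intro r hr
    simp only [List.mem_cons, List.not_mem_nil, or_false] at hr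
    rcases hr with rfl | rfl
    · exact Ideal.mem_sup_right (Ideal.mem_map_of_mem _ (Ideal.subset_span (by simp)))
    · exact Ideal.mem_sup_right (Ideal.mem_map_of_mem _ (Ideal.subset_span (by simp)))
  refine (IsLocalRing.isRegular_iff_isWeaklyRegular_of_subset_maximalIdeal hmem).mpr ?_
  rw [RingTheory.Sequence.isWeaklyRegular_cons_iff]
  refine ⟨isSMulRegular_zz hc, ?_⟩
  rw [RingTheory.Sequence.isWeaklyRegular_singleton_iff]
  change IsSMulRegular (AA k c ⧸ ((al zz : AA k c) • (⊤ : Submodule (AA k c) (AA k c)))) (al yy)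
  rw [isSMulRegular_quotient_iff_mem_of_smul_mem]
  intro a ha
  have h1 : ∀ b : AA k c, b ∈ ((al zz : AA k c) • (⊤ : Submodule (AA k c) (AA k c))) ↔
      b ∈ Ideal.span {(al zz : AA k c)} := by
    intro b
    rw [Submodule.mem_smul_pointwise_iff_exists, Ideal.mem_span_singleton']
    constructor
    · rintro ⟨m, _, rfl⟩
      exact ⟨m, mul_comm _ _⟩
    · rintro ⟨m, rfl⟩
      exact ⟨m, Submodule.mem_top, mul_comm _ _⟩
  rw [h1] at ha ⊢
  exact isSMulRegular_yy hc a ha

theorem ofList_eq : Ideal.ofList [(al zz : AA k c), al yy] = NN.map al := by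
  rw [Ideal.ofList_cons, Ideal.ofList_singleton, NN, Ideal.map_span, Set.image_pair,
    Ideal.span_insert, sup_comm]

theorem isNoetherianRing_A (hc : c ≠ 0) : IsNoetherianRing (AA k c) := by
  have := finA (k := k) hc
  exact isNoetherian_of_tower (R k) (isNoetherian_of_isNoetherianRing_of_finite (R k) (AA k c))

theorem dim_A (hc : c ≠ 0) [IsLocalRing (AA k c)] : ringKrullDim (AA k c) = 2 := by
  have hN := isNoetherianRing_A (k := k) hc
  have h1 := ringKrullDim_add_length_eq_ringKrullDim_of_isRegular _ (isRegular_A (k := k) hc)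
  rw [ofList_eq] at h1
  have h2 : Module.Finite k (AA k c ⧸ (NN ^ 1).map (al : R k →+* AA k c)) := finite_tri hc 1
  rw [pow_one] at h2
  have h3 : IsArtinianRing (AA k c ⧸ NN.map (al : R k →+* AA k c)) :=
    isArtinian_of_tower k inferInstance
  have h4 : Nontrivial (AA k c ⧸ NN.map (al : R k →+* AA k c)) := by
    apply Ideal.Quotient.nontrivial_iff.mpr
    intro h
    have h5 : (MM : Ideal (AA k c)) = ⊤ := top_le_iff.mp (h ▸ le_sup_right)
    exact (MM_isMaximal (k := k) hc).ne_top h5
  have h5 : ringKrullDim (AA k c ⧸ NN.map (al : R k →+* AA k c)) = 0 :=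
    ringKrullDimZero_iff_ringKrullDim_eq_zero.mp inferInstance
  rw [h5] at h1
  rw [← h1]
  rfl

theorem gorenstein_A (hc : c ≠ 0) [IsLocalRing (AA k c)] : IsGorensteinOfDim (AA k c) 2 := by
  have hN := isNoetherianRing_A (k := k) hc
  refine ⟨dim_A hc, [(al zz : AA k c), al yy], rfl, isRegular_A hc, ?_, xx ^ (c - 1), ?_, ?_⟩
  · rw [maximalIdeal_A hc]
    intro r hr
    simp only [List.mem_cons, List.not_mem_nil, or_false] at hr
    rcases hr with rfl | rfl
    · exact Ideal.mem_sup_right (Ideal.mem_map_of_mem _ (Ideal.subset_span (by simp)))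
    · exact Ideal.mem_sup_right (Ideal.mem_map_of_mem _ (Ideal.subset_span (by simp)))
  · rw [ofList_eq, mem_map hc]
    intro h
    have h1 := h (c - 1) (by omega)
    rw [co_xx_pow hc (c - 1) (by omega) (c - 1) (by omega), if_pos rfl, mem_NN, map_one] at h1
    exact one_ne_zero h1
  · intro a
    rw [ofList_eq, maximalIdeal_A hc]
    constructor
    · intro h
      have hx : (xx : AA k c) ∈ (MM : Ideal (AA k c)) :=
        Ideal.mem_sup_left (Ideal.mem_span_singleton_self _)
      have h1 := (mem_map hc _ _).mp (h xx hx)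
      have h2 : ∀ l, l < c - 1 → co hc l a ∈ NN := by
        intro l hl
        have h3 := h1 (l + 1) (by omega)
        rw [co_xx_mul hc a (l + 1) (by omega), shift, if_neg (Nat.succ_ne_zero l)] at h3
        exact h3
      have h4 : a = (a - al (co hc (c - 1) a) * xx ^ (c - 1)) + al (co hc (c - 1) a) * xx ^ (c - 1) := by
        ring
      rw [h4]
      apply Ideal.add_mem
      · apply Ideal.mem_sup_left
        rw [mem_map hc]
        intro l hl
        rw [map_sub, co_mul, co_xx_pow hc (c - 1) (by omega) l hl]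
        split_ifs with h5
        · rw [h5, mul_one, sub_self]
          exact Ideal.zero_mem _
        · rw [mul_zero, sub_zero]
          exact h2 l (by omega)
      · apply Ideal.mem_sup_right
        exact Ideal.mul_mem_left _ _ (Ideal.mem_span_singleton_self _)
    · intro h w hw
      rw [sup_comm] at h
      obtain ⟨t, j, hj, rfl⟩ := Ideal.mem_span_singleton_sup.mp h
      rw [mul_add]
      apply Ideal.add_mem
      · rw [MM] at hw
        obtain ⟨s, v, hv, rfl⟩ := Ideal.mem_span_singleton_sup.mp hw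
        rw [add_mul]
        apply Ideal.add_mem
        · have h6 : s * xx * (t * xx ^ (c - 1)) = s * t * (xx : AA k c) ^ c := by
            have h7 : (xx : AA k c) ^ c = xx * xx ^ (c - 1) := by
              rw [← pow_succ']
              congr 1
              omega
            rw [h7]; ring
          rw [h6, xx_pow]
          apply Ideal.mul_mem_left
          apply Ideal.mem_map_of_mem
          apply Ideal.pow_mem_of_mem _ _ _ (Nat.succ_pos c)
          exact Ideal.subset_span (by simp)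
        · exact Ideal.mul_mem_right _ _ hv
      · exact Ideal.mul_mem_left _ _ hj

theorem ffin_A (hc : c ≠ 0) (p : ℕ) [Fact p.Prime] [CharP k p] (h : FFin (R k) p) :
    FFin (AA k c) p := by
  have hch := charP_A (k := k) hc p
  have hch' : ExpChar (AA k c) p := ExpChar.prime Fact.out
  obtain ⟨ι, _, b, hb⟩ := h
  choose d hd using hb
  refine ⟨Fin c × ι, inferInstance, fun s => al (b s.2) * xx ^ (s.1 : ℕ), fun a =>
    ⟨fun s => al (d (co hc s.1 a) s.2), ?_⟩⟩
  conv_lhs => rw [eq_sum hc a]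
  rw [Fintype.sum_prod_type, ← Fin.sum_univ_eq_sum_range (fun l => al (co hc l a) * xx ^ l) c]
  apply Finset.sum_congr rfl
  intro l _
  conv_lhs => rw [hd (co hc l a), map_sum, Finset.sum_mul]
  apply Finset.sum_congr rfl
  intro s _
  rw [map_mul, map_pow, mul_assoc]

theorem frobenius_finite {B : Type} [CommRing B] (p : ℕ) [Fact p.Prime] [CharP B p]
    (h : FFin B p) : (frobenius B p).Finite := by
  obtain ⟨ι, _, b, hb⟩ := h
  classical
  refine @Module.Finite.of_fg_top B B _ _ (frobenius B p).toAlgebra.toModule ⟨Finset.univ.image b, ?_⟩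
  rw [eq_top_iff]
  intro a _
  obtain ⟨d, hd⟩ := hb a
  rw [hd]
  apply Submodule.sum_mem
  intro i _
  exact @Submodule.smul_mem B B _ _ (frobenius B p).toAlgebra.toModule _ _ (d i)
    (@Submodule.subset_span B B _ _ (frobenius B p).toAlgebra.toModule _ _ (by simp))

/-- `y ↦ t^c` -/
noncomputable def theta (hc : c ≠ 0) : R k →+* R k :=
  PowerSeries.map ((PowerSeries.expand c hc : PowerSeries k →ₐ[k] PowerSeries k) :
    PowerSeries k →+* PowerSeries k)

theorem coeff_theta (hc : c ≠ 0) (f : R k) (j : ℕ) :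
    PowerSeries.coeff j (theta hc f) = PowerSeries.expand c hc (PowerSeries.coeff j f) := by
  rw [theta, PowerSeries.coeff_map]
  rfl

theorem theta_yy (hc : c ≠ 0) : theta hc (yy : R k) = PowerSeries.C (PowerSeries.X ^ c) := by
  rw [theta, yy, PowerSeries.map_C]
  congr 1
  exact PowerSeries.expand_X c hc

theorem theta_yy_pow (hc : c ≠ 0) : theta hc ((yy : R k) ^ (c + 1)) =
    (PowerSeries.C (PowerSeries.X ^ (c + 1)) : R k) ^ c := by
  have h1 : theta hc ((yy : R k) ^ (c + 1)) = (theta hc yy) ^ (c + 1) := map_pow _ _ _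
  rw [h1, theta_yy, ← map_pow, ← map_pow, ← pow_mul, ← pow_mul, mul_comm]

/-- `y ↦ t^c`, `x ↦ t^(c+1)` -/
noncomputable def Psi (hc : c ≠ 0) : AA k c →+* R k :=
  AdjoinRoot.lift (theta hc) (PowerSeries.C (PowerSeries.X ^ (c + 1))) (by
    rw [pol, Polynomial.eval₂_sub, Polynomial.eval₂_pow, Polynomial.eval₂_X, Polynomial.eval₂_C,
      theta_yy_pow, sub_self])

theorem Psi_al (hc : c ≠ 0) (r : R k) : Psi hc (al r) = theta hc r := by
  rw [al_eq]
  simp [Psi]

theorem Psi_xx (hc : c ≠ 0) : Psi (k := k) hc xx = PowerSeries.C (PowerSeries.X ^ (c + 1)) := by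
  simp [Psi, xx]

theorem Psi_injective (hc : c ≠ 0) : Function.Injective (Psi (k := k) hc) := by
  rw [injective_iff_map_eq_zero]
  intro a ha
  apply co_ext hc
  intro l hl
  rw [map_zero]
  ext j i
  rw [map_zero, map_zero]
  have h1 := congrArg (fun f => PowerSeries.coeff (c * i + (c + 1) * l) (PowerSeries.coeff j f)) ha
  simp only [map_zero] at h1
  rw [eq_sum hc a, map_sum, map_sum, map_sum, Finset.sum_eq_single l] at h1
  · rw [map_mul, Psi_al, map_pow, Psi_xx, ← map_pow, ← pow_mul, PowerSeries.coeff_mul_C,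
      coeff_theta, PowerSeries.coeff_mul_X_pow, PowerSeries.coeff_expand_mul] at h1
    exact h1
  · intro m hm hml
    rw [map_mul, Psi_al, map_pow, Psi_xx, ← map_pow, ← pow_mul, PowerSeries.coeff_mul_C,
      coeff_theta, PowerSeries.coeff_mul_X_pow']
    split_ifs with hle
    · apply PowerSeries.coeff_expand_of_not_dvd
      rintro ⟨s, hs⟩
      have hm' := Finset.mem_range.mp hm
      have h2 : c * i + (c + 1) * l = c * s + (c + 1) * m := by omega
      have h3 : c * (i + l) + l = c * (s + m) + m := by linarith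
      have h4 : (c * (i + l) + l) % c = l := by
        rw [Nat.mul_add_mod, Nat.mod_eq_of_lt hl]
      have h5 : (c * (s + m) + m) % c = m := by
        rw [Nat.mul_add_mod, Nat.mod_eq_of_lt hm']
      rw [h3, h5] at h4
      exact hml h4
    · rfl
  · intro h
    exact absurd (Finset.mem_range.mpr hl) h

theorem isDomain_A (hc : c ≠ 0) : IsDomain (AA k c) :=
  Function.Injective.isDomain (Psi (k := k) hc) (Psi_injective hc)

theorem tendsto_mult (hc : c ≠ 0) [IsLocalRing (AA k c)] : HasMultiplicity (AA k c) 2 c := by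
  unfold HasMultiplicity
  have hfac : ((Nat.factorial 2 : ℕ) : ℝ) = 2 := by norm_num [Nat.factorial]
  rw [hfac]
  have hlow : Tendsto (fun n : ℕ => (c : ℝ) * ((1 - ((c : ℝ) - 1) * (1 / (n : ℝ))) *
      (1 - ((c : ℝ) - 2) * (1 / (n : ℝ))))) atTop (𝓝 c) := by
    have h1 : Tendsto (fun n : ℕ => 1 / (n : ℝ)) atTop (𝓝 0) := tendsto_one_div_atTop_nhds_zero_nat
    have h2 := (tendsto_const_nhds (x := (c : ℝ))).mul
      (((tendsto_const_nhds (x := (1 : ℝ))).sub ((tendsto_const_nhds (x := (c : ℝ) - 1)).mul h1)).mul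
      ((tendsto_const_nhds (x := (1 : ℝ))).sub ((tendsto_const_nhds (x := (c : ℝ) - 2)).mul h1)))
    simpa using h2
  have hup : Tendsto (fun n : ℕ => (c : ℝ) * (1 + 1 / (n : ℝ))) atTop (𝓝 c) := by
    have h1 : Tendsto (fun n : ℕ => 1 / (n : ℝ)) atTop (𝓝 0) := tendsto_one_div_atTop_nhds_zero_nat
    have h2 := (tendsto_const_nhds (x := (c : ℝ))).mul ((tendsto_const_nhds (x := (1 : ℝ))).add h1)
    simpa using h2
  refine tendsto_of_tendsto_of_tendsto_of_le_of_le' hlow hup ?_ ?_
  · filter_upwards [eventually_ge_atTop (c + 1)] with n hn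
    have hn0 : (0 : ℝ) < n := by
      have : 0 < n := by omega
      exact_mod_cast this
    have h1 := le_colen_pow (k := k) hc n
    have h2 : ((n + 1 - c : ℕ) : ℝ) = (n : ℝ) + 1 - c := by
      rw [Nat.cast_sub (by omega)]
      push_cast
      ring
    rw [h2] at h1
    rw [le_div_iff₀ (by positivity)]
    refine le_trans (le_of_eq ?_) (mul_le_mul_of_nonneg_left h1 (by norm_num : (0 : ℝ) ≤ 2))
    field_simp
    ring
  · filter_upwards [eventually_ge_atTop (c + 1)] with n hn
    have hn0 : (0 : ℝ) < n := by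
      have : 0 < n := by omega
      exact_mod_cast this
    have h1 := colen_pow_le (k := k) hc n
    rw [div_le_iff₀ (by positivity)]
    refine le_trans (mul_le_mul_of_nonneg_left h1 (by norm_num : (0 : ℝ) ≤ 2)) (le_of_eq ?_)
    field_simp

theorem tendsto_HK (hc : c ≠ 0) (p : ℕ) [hp : Fact p.Prime] [CharP k p] [IsLocalRing (AA k c)] :
    HasHilbertKunz (AA k c) p 2 c := by
  unfold HasHilbertKunz
  refine (tendsto_const_nhds (x := (c : ℝ))).congr' ?_
  filter_upwards [eventually_ge_atTop (c ^ 2)] with e he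
  have hq : c ^ 2 ≤ p ^ e := he.trans (Nat.lt_pow_self hp.out.one_lt).le
  rw [frobPow_eq hc p e hq, colen_box hc]
  push_cast
  have h1 : ((p : ℝ) ^ e) ^ 2 ≠ 0 := by
    have : (0 : ℝ) < p := by exact_mod_cast hp.out.pos
    positivity
  rw [mul_div_assoc, div_self h1, mul_one]

theorem tendsto_sig (hc : 2 ≤ c) (p : ℕ) [hp : Fact p.Prime] [IsLocalRing (AA k c)] :
    HasFSignature (AA k c) p 2 0 := by
  unfold HasFSignature
  refine (tendsto_const_nhds (x := (0 : ℝ))).congr' ?_
  filter_upwards [eventually_ge_atTop (c ^ 2)] with e he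
  have hq : c ^ 2 ≤ p ^ e := he.trans (Nat.lt_pow_self hp.out.one_lt).le
  rw [freeRank_eq_zero hc p e hq, Nat.cast_zero, zero_div]

end

/-- **Main theorem.** -/
theorem main (p : ℕ) [hp : Fact p.Prime] (m : ℕ) (hm : 3 ≤ m) :
    ∃ (A : Type) (_ : CommRing A) (_ : IsDomain A) (_ : IsLocalRing A) (_ : CharP A p),
      IsNoetherianRing A ∧ (frobenius A p).Finite ∧ IsGorensteinOfDim A 2 ∧
      ∃ ε εHK s : ℝ, HasMultiplicity A 2 ε ∧ HasHilbertKunz A p 2 εHK ∧ HasFSignature A p 2 s ∧
        εHK = s + (1 - s) * ε ∧ ε = m ∧ s = 0 := by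
  have hc : m ≠ 0 := by omega
  have h1 := isDomain_A (k := ZMod p) hc
  have h2 := isLocalRing_A (k := ZMod p) hc
  have h3 := charP_A (k := ZMod p) hc p
  refine ⟨AA (ZMod p) m, inferInstance, h1, h2, h3, isNoetherianRing_A hc,
    frobenius_finite p (ffin_A hc p (ffin_powerSeries p (ffin_powerSeries p (ffin_zmod p)))),
    gorenstein_A hc, m, m, 0, tendsto_mult hc, tendsto_HK hc p, tendsto_sig (by omega) p, ?_,
    rfl, rfl⟩
  ring

end Pool.Agent.V1146.HKS
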