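import Pool.Agent.V1146.HKS.Len

set_option autoImplicit false

open IsLocalRing PowerSeries

namespace Pool.Agent.V1146.HKS

/-- module-finite over the `p`-th powers -/
def FFin (B : Type) [CommRing B] (p : ℕ) : Prop :=
  ∃ (ι : Type) (_ : Fintype ι) (b : ι → B), ∀ a : B, ∃ c : ι → B, a = ∑ i, c i ^ p * b i

theorem coeff_pow_char {B : Type} [CommRing B] (p : ℕ) [hp : Fact p.Prime] [CharP B p]
    (f : PowerSeries B) (n : ℕ) :
    coeff n (f ^ p) = if p ∣ n then (coeff (n / p) f) ^ p else 0 := by
  have h1 : PowerSeries.map (frobenius B p) (f.expand p hp.out.ne_zero) = f ^ p :=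
    MvPowerSeries.map_frobenius_expand p hp.out.ne_zero
  rw [← h1, coeff_map, coeff_expand]
  split_ifs
  · rfl
  · exact map_zero _

theorem ffin_powerSeries {B : Type} [CommRing B] (p : ℕ) [hp : Fact p.Prime] [CharP B p]
    (h : FFin B p) : FFin (PowerSeries B) p := by
  obtain ⟨ι, _, b, hb⟩ := h
  choose c hc using hb
  refine ⟨Fin p × ι, inferInstance, fun s => C (b s.2) * X ^ (s.1 : ℕ), fun f => ?_⟩
  refine ⟨fun s => PowerSeries.mk fun m => c (coeff (p * m + s.1) f) s.2, ?_⟩
  have hp0 : 0 < p := hp.out.pos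
  ext n
  rw [map_sum, Fintype.sum_prod_type]
  have hterm : ∀ (r : Fin p) (s : ι),
      coeff n ((PowerSeries.mk fun m => c (coeff (p * m + r) f) s) ^ p * (C (b s) * X ^ (r : ℕ)))
      = if (r : ℕ) = n % p then (c (coeff n f) s) ^ p * b s else 0 := by
    intro r s
    rw [mul_comm (C (b s)), ← mul_assoc, coeff_mul_C]
    split_ifs with hr
    · have hn : n = p * (n / p) + r := by rw [hr]; exact (Nat.div_add_mod n p).symm
      conv_lhs => rw [hn]
      rw [coeff_mul_X_pow, coeff_pow_char, if_pos (Dvd.intro _ rfl), Nat.mul_div_cancel_left _ hp0,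
        coeff_mk, ← hn]
    · by_cases hle : (r : ℕ) ≤ n
      · obtain ⟨m, rfl⟩ := Nat.exists_eq_add_of_le hle
        rw [add_comm (r : ℕ) m, coeff_mul_X_pow, coeff_pow_char, if_neg, zero_mul]
        intro hd
        apply hr
        obtain ⟨t, rfl⟩ := hd
        rw [Nat.add_comm, Nat.mul_add_mod, Nat.mod_eq_of_lt r.2]
      · rw [coeff_mul_X_pow', if_neg hle, zero_mul]
  simp only [hterm]
  rw [Finset.sum_eq_single (⟨n % p, Nat.mod_lt _ hp0⟩ : Fin p)]
  · simp only [if_true]
    exact hc (coeff n f)
  · intro r _ hr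
    apply Finset.sum_eq_zero
    intro s _
    rw [if_neg]
    intro h
    apply hr
    exact Fin.ext h
  · intro h
    exact absurd (Finset.mem_univ _) h

theorem ffin_zmod (p : ℕ) [hp : Fact p.Prime] : FFin (ZMod p) p :=
  ⟨Unit, inferInstance, fun _ => 1, fun a => ⟨fun _ => a, by simp [ZMod.pow_card]⟩⟩

instance charP_powerSeries {B : Type} [CommRing B] (p : ℕ) [CharP B p] :
    CharP (PowerSeries B) p :=
  charP_of_injective_ringHom (f := (C : B →+* PowerSeries B)) C_injective p

section R

variable (k : Type) [Field k]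

/-- `k⟦y⟧⟦z⟧` -/
abbrev R : Type := PowerSeries (PowerSeries k)

variable {k}

/-- the variable `y` -/
noncomputable def yy : R k := C X

/-- the variable `z` -/
noncomputable def zz : R k := X

/-- coefficient of `y^i z^j` -/
noncomputable def cf (i j : ℕ) : R k →ₗ[k] k where
  toFun f := coeff i (coeff j f)
  map_add' a b := by rw [map_add, map_add]
  map_smul' a b := by
    simp only [RingHom.id_apply]
    rfl

theorem cf_apply (i j : ℕ) (f : R k) : cf i j f = coeff i (coeff j f) := rfl

/-- evaluation at `0` -/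
noncomputable def ev : R k →+* k := (constantCoeff (R := k)).comp (constantCoeff (R := PowerSeries k))

theorem ev_apply (f : R k) : ev f = cf 0 0 f := by
  rw [cf_apply]
  simp [ev]

theorem mem_box {q : ℕ} {f : R k} :
    f ∈ Ideal.span {(yy : R k) ^ q, zz ^ q} ↔ ∀ i j, i < q → j < q → cf i j f = 0 := by
  constructor
  · intro hf i j hi hj
    obtain ⟨a, b, rfl⟩ := Ideal.mem_span_pair.mp hf
    rw [map_add, cf_apply, cf_apply, zz, coeff_mul_X_pow', if_neg (not_le.mpr hj), yy, ← map_pow,
      coeff_mul_C, coeff_mul_X_pow', if_neg (not_le.mpr hi)]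
    simp
  · intro h
    have h1 : (X : R k) ^ q ∣ f - ∑ j ∈ Finset.range q, C (coeff j f) * X ^ j := by
      rw [X_pow_dvd_iff]
      intro m hm
      rw [map_sub, map_sum, sub_eq_zero]
      rw [Finset.sum_eq_single m]
      · rw [coeff_C_mul_X_pow, if_pos rfl]
      · intro b _ hb
        rw [coeff_C_mul_X_pow, if_neg hb.symm]
      · intro hm'
        exact absurd (Finset.mem_range.mpr hm) hm'
    obtain ⟨g, hg⟩ := h1
    rw [sub_eq_iff_eq_add] at hg
    rw [hg]
    apply Ideal.add_mem
    · exact Ideal.mul_mem_right _ _ (Ideal.subset_span (by simp [zz]))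
    · apply Ideal.sum_mem
      intro j hj
      apply Ideal.mul_mem_right
      have h2 : (X : PowerSeries k) ^ q ∣ coeff j f := by
        rw [X_pow_dvd_iff]
        intro i hi
        exact h i j hi (Finset.mem_range.mp hj)
      obtain ⟨b, hb⟩ := h2
      rw [hb, map_mul]
      apply Ideal.mul_mem_right
      rw [map_pow]
      exact Ideal.subset_span (by simp [yy])

/-- the maximal ideal `(y, z)` -/
noncomputable def NN : Ideal (R k) := Ideal.span {yy, zz}

theorem mem_NN {f : R k} : f ∈ NN ↔ ev f = 0 := by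
  have h := mem_box (k := k) (q := 1) (f := f)
  rw [pow_one, pow_one] at h
  rw [NN, h, ev_apply]
  constructor
  · intro h1; exact h1 0 0 one_pos one_pos
  · intro h1 i j hi hj
    rw [Nat.lt_one_iff.mp hi, Nat.lt_one_iff.mp hj, h1]

theorem mem_NN_pow {n : ℕ} {f : R k} :
    f ∈ NN ^ n ↔ ∀ i j, i + j < n → cf i j f = 0 := by
  constructor
  · induction n generalizing f with
    | zero => intro _ i j h; omega
    | succ n ih =>
      intro hf
      rw [pow_succ'] at hf
      refine Submodule.mul_induction_on hf ?_ ?_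
      · intro a ha b hb i j hij
        have ha' := mem_NN.mp ha
        rw [ev_apply] at ha'
        rw [cf_apply, coeff_mul, map_sum]
        apply Finset.sum_eq_zero
        intro s hs
        rw [coeff_mul]
        apply Finset.sum_eq_zero
        intro t ht
        rw [Finset.HasAntidiagonal.mem_antidiagonal] at hs ht
        by_cases h0 : t.1 = 0 ∧ s.1 = 0
        · have : coeff t.1 (coeff s.1 a) = 0 := by rw [h0.1, h0.2]; exact ha'
          rw [this, zero_mul]
        · have : coeff t.2 (coeff s.2 b) = 0 := ih hb t.2 s.2 (by omega)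
          rw [this, mul_zero]
      · intro a b ha hb i j hij
        rw [map_add, ha i j hij, hb i j hij, add_zero]
  · intro h
    have h1 : (X : R k) ^ n ∣ f - ∑ j ∈ Finset.range n, C (coeff j f) * X ^ j := by
      rw [X_pow_dvd_iff]
      intro m hm
      rw [map_sub, map_sum, sub_eq_zero]
      rw [Finset.sum_eq_single m]
      · rw [coeff_C_mul_X_pow, if_pos rfl]
      · intro b _ hb
        rw [coeff_C_mul_X_pow, if_neg hb.symm]
      · intro hm'
        exact absurd (Finset.mem_range.mpr hm) hm'
    have hy : (yy : R k) ∈ NN := Ideal.subset_span (by simp)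
    have hz : (X : R k) ∈ NN := Ideal.subset_span (by simp [zz])
    obtain ⟨g, hg⟩ := h1
    rw [sub_eq_iff_eq_add] at hg
    rw [hg]
    apply Ideal.add_mem
    · exact Ideal.mul_mem_right _ _ (Ideal.pow_mem_pow hz n)
    · apply Ideal.sum_mem
      intro j hj
      have hj' := Finset.mem_range.mp hj
      have h2 : (X : PowerSeries k) ^ (n - j) ∣ coeff j f := by
        rw [X_pow_dvd_iff]
        intro i hi
        exact h i j (by omega)
      obtain ⟨b, hb⟩ := h2
      rw [hb, map_mul, map_pow]
      have h3 : (C (X : PowerSeries k) : R k) ^ (n - j) * C b * X ^ j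
          = C b * ((yy : R k) ^ (n - j) * X ^ j) := by rw [yy]; ring
      rw [h3]
      apply Ideal.mul_mem_left
      have h4 : n = (n - j) + j := by omega
      rw [h4, pow_add]
      have h5 : n - j + j - j = n - j := by omega
      rw [h5]
      exact Ideal.mul_mem_mul (Ideal.pow_mem_pow hy _) (Ideal.pow_mem_pow hz _)

end R

end Pool.Agent.V1146.HKS
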