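import Pool.Agent.V1146.HKS.PS

set_option autoImplicit false

open IsLocalRing

namespace Pool.Agent.V1146.HKS

section

variable (k : Type) [Field k] (c : ℕ)

/-- the polynomial `X^c - y^(c+1)` over `k⟦y,z⟧` -/
noncomputable def pol : Polynomial (R k) := Polynomial.X ^ c - Polynomial.C (yy ^ (c + 1))

/-- the ring `k⟦y,z⟧[x]/(x^c - y^(c+1))` -/
abbrev AA : Type := AdjoinRoot (pol k c)

variable {k c}

theorem pol_monic (hc : c ≠ 0) : (pol k c).Monic := Polynomial.monic_X_pow_sub_C _ hc

theorem pol_natDegree : (pol k c).natDegree = c := Polynomial.natDegree_X_pow_sub_C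

/-- the element `x` -/
noncomputable def xx : AA k c := AdjoinRoot.root (pol k c)

/-- the structure map -/
noncomputable def al : R k →+* AA k c := algebraMap (R k) (AA k c)

theorem al_eq (r : R k) : (al r : AA k c) = AdjoinRoot.mk (pol k c) (Polynomial.C r) := rfl

theorem xx_eq : (xx : AA k c) = AdjoinRoot.mk (pol k c) Polynomial.X := rfl

theorem xx_pow : (xx : AA k c) ^ c = al (yy ^ (c + 1)) := by
  rw [xx_eq, al_eq, ← map_pow, AdjoinRoot.mk_eq_mk]
  exact dvd_refl _

/-- coordinates -/
noncomputable def co (hc : c ≠ 0) (l : ℕ) : AA k c →ₗ[R k] R k :=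
  (Polynomial.lcoeff (R k) l) ∘ₗ AdjoinRoot.modByMonicHom (pol_monic hc)

theorem co_mk (hc : c ≠ 0) (l : ℕ) (f : Polynomial (R k)) (hf : f.degree < c) :
    co hc l (AdjoinRoot.mk (pol k c) f) = f.coeff l := by
  have h1 : f %ₘ (pol k c) = f := by
    refine (Polynomial.modByMonic_eq_self_iff (pol_monic (k := k) hc)).mpr ?_
    rw [Polynomial.degree_eq_natDegree (pol_monic (k := k) hc).ne_zero, pol_natDegree]
    exact hf
  change (AdjoinRoot.modByMonicHom (pol_monic hc) (AdjoinRoot.mk (pol k c) f)).coeff l = _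
  rw [AdjoinRoot.modByMonicHom_mk, h1]

theorem co_mul (hc : c ≠ 0) (l : ℕ) (r : R k) (a : AA k c) : co hc l (al r * a) = r * co hc l a := by
  have : al r * a = r • a := (Algebra.smul_def r a).symm
  rw [this, map_smul, smul_eq_mul]

theorem eq_sum (hc : c ≠ 0) (a : AA k c) :
    a = ∑ l ∈ Finset.range c, al (co hc l a) * xx ^ l := by
  have h1 : AdjoinRoot.mk (pol k c) (AdjoinRoot.modByMonicHom (pol_monic hc) a) = a :=
    AdjoinRoot.mk_leftInverse (pol_monic hc) a
  have h2 : (AdjoinRoot.modByMonicHom (pol_monic hc) a).natDegree < c := by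
    obtain ⟨f, rfl⟩ := AdjoinRoot.mk_surjective a
    rw [AdjoinRoot.modByMonicHom_mk]
    have := Polynomial.natDegree_modByMonic_lt f (pol_monic hc) (fun h => by
      have h3 := congrArg Polynomial.natDegree h
      rw [pol_natDegree, Polynomial.natDegree_one] at h3
      exact hc h3)
    rwa [pol_natDegree] at this
  conv_lhs => rw [← h1, Polynomial.as_sum_range' _ c h2]
  rw [map_sum]
  apply Finset.sum_congr rfl
  intro l _
  rw [← Polynomial.C_mul_X_pow_eq_monomial, map_mul, map_pow]
  rfl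

theorem co_sum (hc : c ≠ 0) (l : ℕ) (hl : l < c) (f : ℕ → R k) :
    co hc l (∑ m ∈ Finset.range c, al (f m) * xx ^ m) = f l := by
  have h1 : (∑ m ∈ Finset.range c, al (f m) * xx ^ m : AA k c)
      = AdjoinRoot.mk (pol k c) (∑ m ∈ Finset.range c, Polynomial.C (f m) * Polynomial.X ^ m) := by
    rw [map_sum]
    apply Finset.sum_congr rfl
    intro m _
    rw [map_mul, map_pow]
    rfl
  rw [h1, co_mk]
  · rw [Polynomial.finsetSum_coeff]
    simp [Polynomial.coeff_C_mul, Polynomial.coeff_X_pow, hl]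
  · rw [Polynomial.degree_lt_iff_coeff_zero]
    intro m hm
    rw [Polynomial.finsetSum_coeff]
    apply Finset.sum_eq_zero
    intro b hb
    have := Finset.mem_range.mp hb
    rw [Polynomial.coeff_C_mul_X_pow, if_neg (by omega)]

theorem mem_map (hc : c ≠ 0) (I : Ideal (R k)) (a : AA k c) :
    a ∈ I.map (al : R k →+* AA k c) ↔ ∀ l < c, co hc l a ∈ I := by
  constructor
  · intro ha l _
    have h1 : a ∈ (I • ⊤ : Submodule (R k) (AA k c)) := by
      rw [Ideal.smul_top_eq_map]
      exact ha
    refine Submodule.smul_induction_on h1 ?_ ?_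
    · intro r hr n _
      rw [map_smul, smul_eq_mul]
      exact Ideal.mul_mem_right _ _ hr
    · intro x y hx hy
      rw [map_add]
      exact Ideal.add_mem _ hx hy
  · intro h
    rw [eq_sum hc a]
    apply Ideal.sum_mem
    intro l hl
    exact Ideal.mul_mem_right _ _ (Ideal.mem_map_of_mem _ (h l (Finset.mem_range.mp hl)))

/-- the evaluation `A → k` -/
noncomputable def evA (hc : c ≠ 0) : AA k c →+* k :=
  AdjoinRoot.lift ev 0 (by
    rw [pol, Polynomial.eval₂_sub, Polynomial.eval₂_pow, Polynomial.eval₂_X, Polynomial.eval₂_C,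
      zero_pow hc, map_pow]
    have : ev (yy : R k) = 0 := by
      rw [ev_apply, cf_apply]
      simp [yy]
    rw [this, zero_pow (Nat.succ_ne_zero c), sub_zero])

theorem evA_al (hc : c ≠ 0) (r : R k) : evA hc (al r) = ev r := by
  rw [al_eq]
  simp [evA]

theorem evA_xx (hc : c ≠ 0) : evA (k := k) hc xx = 0 := by
  simp [evA, xx]

/-- the ideal `(x, y, z)` -/
noncomputable def MM : Ideal (AA k c) := Ideal.span {xx} ⊔ NN.map al

theorem mem_MM (hc : c ≠ 0) (a : AA k c) : a ∈ (MM : Ideal (AA k c)) ↔ evA hc a = 0 := by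
  constructor
  · intro h
    have h1 : (MM : Ideal (AA k c)) ≤ RingHom.ker (evA hc) := by
      rw [MM, sup_le_iff]
      constructor
      · rw [Ideal.span_singleton_le_iff_mem, RingHom.mem_ker, evA_xx]
      · rw [Ideal.map_le_iff_le_comap]
        intro r hr
        rw [Ideal.mem_comap, RingHom.mem_ker, evA_al]
        exact mem_NN.mp hr
    exact h1 h
  · intro h
    obtain ⟨f, rfl⟩ := AdjoinRoot.mk_surjective a
    have h2 : f = Polynomial.X * f.divX + Polynomial.C (f.coeff 0) := (Polynomial.X_mul_divX_add f).symm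
    rw [h2, map_add, map_mul] at h ⊢
    rw [← xx_eq, ← al_eq] at h ⊢
    apply Ideal.add_mem
    · exact Ideal.mul_mem_right _ _ (Ideal.mem_sup_left (Ideal.mem_span_singleton_self _))
    · apply Ideal.mem_sup_right
      apply Ideal.mem_map_of_mem
      rw [mem_NN]
      rw [map_add, map_mul, evA_xx, zero_mul, zero_add, evA_al] at h
      exact h

theorem MM_isMaximal (hc : c ≠ 0) : (MM : Ideal (AA k c)).IsMaximal := by
  have h1 : (MM : Ideal (AA k c)) = RingHom.ker (evA hc) := by
    ext a
    rw [mem_MM hc, RingHom.mem_ker]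
  rw [h1]
  apply RingHom.ker_isMaximal_of_surjective
  intro t
  refine ⟨al (PowerSeries.C (PowerSeries.C t)), ?_⟩
  rw [evA_al, ev]
  simp

theorem finA (hc : c ≠ 0) : Module.Finite (R k) (AA k c) := (pol_monic hc).finite_adjoinRoot

theorem maximalIdeal_R : maximalIdeal (R k) = NN := by
  ext f
  rw [mem_maximalIdeal, mem_nonunits_iff, mem_NN]
  rw [PowerSeries.isUnit_iff_constantCoeff, PowerSeries.isUnit_iff_constantCoeff, isUnit_iff_ne_zero,
    not_not]
  rfl

theorem local_aux (hc : c ≠ 0) (M : Ideal (AA k c)) (hM : M.IsMaximal) : M = MM := by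
  have := finA (k := k) hc
  have h1 : (M.comap (algebraMap (R k) (AA k c))).IsMaximal :=
    Ideal.isMaximal_comap_of_isIntegral_of_isMaximal M
  have h2 : M.comap (algebraMap (R k) (AA k c)) = NN := by
    rw [← maximalIdeal_R]
    exact IsLocalRing.eq_maximalIdeal h1
  have h3 : (MM : Ideal (AA k c)) ≤ M := by
    rw [MM, sup_le_iff]
    constructor
    · rw [Ideal.span_singleton_le_iff_mem]
      have h4 : (xx : AA k c) ^ c ∈ M := by
        rw [xx_pow]
        have h5 : (yy : R k) ^ (c + 1) ∈ M.comap (algebraMap (R k) (AA k c)) := by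
          rw [h2]
          apply Ideal.pow_mem_of_mem _ _ _ (Nat.succ_pos c)
          exact Ideal.subset_span (by simp)
        exact h5
      exact hM.isPrime.mem_of_pow_mem _ h4
    · rw [Ideal.map_le_iff_le_comap]
      exact h2.ge
  exact ((MM_isMaximal hc).eq_of_le hM.ne_top h3).symm

theorem isLocalRing_A (hc : c ≠ 0) : IsLocalRing (AA k c) :=
  IsLocalRing.of_unique_max_ideal ⟨MM, MM_isMaximal hc, fun M hM => local_aux hc M hM⟩

theorem maximalIdeal_A (hc : c ≠ 0) [IsLocalRing (AA k c)] : maximalIdeal (AA k c) = MM :=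
  local_aux hc _ (IsLocalRing.maximalIdeal.isMaximal _)

theorem residue (hc : c ≠ 0) [IsLocalRing (AA k c)] (a : AA k c) :
    ∃ t : k, a - algebraMap k (AA k c) t ∈ maximalIdeal (AA k c) := by
  refine ⟨evA hc a, ?_⟩
  rw [maximalIdeal_A hc, mem_MM hc, map_sub, sub_eq_zero]
  have h1 : algebraMap k (AA k c) (evA hc a) = al (algebraMap k (R k) (evA hc a)) :=
    IsScalarTower.algebraMap_apply k (R k) (AA k c) _
  rw [h1, evA_al]
  rw [PowerSeries.algebraMap_apply, PowerSeries.algebraMap_apply, ev]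
  simp

end

end Pool.Agent.V1146.HKS
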